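import Pool.Agent.Lib.MP_bc213e_ag.OW.A.Loc

/-! Two local equations of `L` at points that specialise the centre of a valuation ring have the
same value. -/

namespace Pool.Agent.Lib.MP_bc213e_ag.OW

open Pool.Agent.Lib.MP_bc213e_ag.Hyp Pool.Agent.Lib.MP_bc213e_ag.KBB WithZero Filter

variable {K : Type} [Field K] [Algebra ℂ K]

theorem Val_le {V : ValuationSubring K} {r : K} (h : r ∈ V) : V.valuation r ≤ 1 :=
  (V.valuation_le_one_iff r).2 h

theorem Val_one {V : ValuationSubring K} {r : K} (h0 : r ≠ 0) (h : r ∈ V) (h' : r⁻¹ ∈ V) :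
    V.valuation r = 1 := by
  refine le_antisymm (Val_le h) ?_
  have h1 := Val_le h'
  rw [map_inv₀] at h1
  exact (inv_le_one₀ (zero_lt_iff.2 ((map_ne_zero V.valuation).2 h0))).1 h1

/-- The centre of a valuation ring. -/
def valCentre (A : Subalgebra ℂ K) (V : ValuationSubring K) (h : ∀ r ∈ A, r ∈ V) : Ideal A where
  carrier := {r | V.valuation (r : K) < 1}
  add_mem' := fun ha hb => (V.valuation.map_add _ _).trans_lt (max_lt ha hb)
  zero_mem' := by simp
  smul_mem' := fun c r hr => by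
    change V.valuation ((c : K) * r) < 1
    rw [map_mul]
    exact (mul_le_of_le_one_left' (Val_le (h _ c.2))).trans_lt hr

theorem mem_valCentre {A : Subalgebra ℂ K} {V : ValuationSubring K} {h : ∀ r ∈ A, r ∈ V} {r : A} :
    r ∈ valCentre A V h ↔ V.valuation (r : K) < 1 := Iff.rfl

theorem notMem_valCentre {A : Subalgebra ℂ K} {V : ValuationSubring K} {h : ∀ r ∈ A, r ∈ V} {r : A} :
    r ∉ valCentre A V h ↔ V.valuation (r : K) = 1 := by
  rw [mem_valCentre, not_lt]
  exact ⟨fun h' => le_antisymm (Val_le (h _ r.2)) h', fun h' => h'.ge⟩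

instance valCentre_prime (A : Subalgebra ℂ K) (V : ValuationSubring K) (h : ∀ r ∈ A, r ∈ V) :
    (valCentre A V h).IsPrime where
  ne_top' := fun e => by
    have h1 : (1 : A) ∈ valCentre A V h := e ▸ Submodule.mem_top
    simp [mem_valCentre] at h1
  mem_or_mem' := fun {a b} hab => by
    by_contra hn
    rw [not_or, notMem_valCentre, notMem_valCentre] at hn
    rw [mem_valCentre, Subalgebra.coe_mul, map_mul, hn.1, hn.2, one_mul] at hab
    exact lt_irrefl _ hab

/-- A valuation ring that contains the constants contains one of the charts. -/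
theorem exists_chart_le {κ : Type} [Fintype κ] [Nonempty κ] (y : κ → Kˣ) (V : ValuationSubring K)
    (hc : ∀ c : ℂ, algebraMap ℂ K c ∈ V) : ∃ a, ∀ r ∈ chart y a, r ∈ V := by
  obtain ⟨a, ha⟩ := Finite.exists_max fun a => V.valuation (y a : K)
  refine ⟨a, fun r hr => ?_⟩
  induction hr using Algebra.adjoin_induction with
  | mem r hr =>
    obtain ⟨l, rfl⟩ := hr
    rw [← V.valuation_le_one_iff, map_div₀]
    exact div_le_one_of_le₀ (ha l) zero_le
  | algebraMap c => exact hc c
  | add _ _ _ _ h1 h2 => exact add_mem h1 h2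
  | mul _ _ _ _ h1 h2 => exact mul_mem h1 h2

variable {κ : Type} {N : ℕ} {x : Fin N → Kˣ} {L : Prm x →₀ ℤ}

theorem Emb.val_eq (E : Emb L κ)
    (normal : ∀ i, IsFractionRing (chart x i) K ∧ IsIntegrallyClosed (chart x i))
    (V : ValuationSubring K) {a : κ} (ha : ∀ r ∈ chart E.x' a, r ∈ V) {O : Subalgebra ℂ K}
    (hO : IsPoint x O) (hV : ∀ r ∈ O, r ∈ V) {f : Kˣ} (hf : LocEq L O f) :
    V.valuation ((E.g' a : K) * f) = 1 := by
  obtain ⟨i, p, hp, hO⟩ := hO
  have eO : O = locAt (chart x i) p := Subalgebra.ext hO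
  subst eO
  have hi : ∀ r ∈ chart x i, r ∈ V := fun r hr => hV r ((loc_locAt p).1 hr)
  have hj : ∀ r ∈ chart x (E.j a), r ∈ V := fun r hr => ha r ((E.loc a).1 hr)
  have := (normal i).1
  have := (normal i).2
  have := chart_noeth x i
  have u0 : (x (E.j a) : K) / x i ≠ 0 := div_ne_zero (Units.ne_zero _) (Units.ne_zero _)
  have u1 : V.valuation ((x (E.j a) : K) / x i) = 1 :=
    Val_one u0 (hi _ (Basic_mem x i _)) (by rw [inv_div]; exact hj _ (Basic_mem x _ i))
  obtain ⟨r, r', h1, h2, h3⟩ := exists_unit (valCentre _ V hi) (z := (E.g' a : K) * f)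
    (mul_ne_zero (Units.ne_zero _) (Units.ne_zero _)) fun w hw => by
      obtain ⟨w1, w2⟩ := (primeDiv_locAt _ w).1 hw
      have w3 : ∀ r ∈ chart x i, V.valuation r = 1 → w r = 1 := fun r hr h =>
        le_antisymm (w1.2.1 r hr) (not_lt.1 fun h' => notMem_valCentre.2 h (w2 ⟨r, hr⟩ h'))
      have w4 := w3 _ (Basic_mem x i (E.j a)) u1
      have w5 : PrimeDiv (chart x (E.j a)) w := (primeDiv_chart w1 _).2 w4
      have w6 : PrimeDiv (chart E.x' a) w := primeDiv_of_le (E.loc a).1 w5 fun r hr => by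
        obtain ⟨b, b1, b2, b3, b4⟩ := (E.loc a).2 r hr
        obtain ⟨e, he⟩ := chart_trans x (E.j a) i b1
        have b5 := w3 _ he (by
          rw [map_mul, map_pow, u1, Val_one b2 (hj b b1) (ha _ b3), one_pow, one_mul])
        rw [map_mul, map_pow, w4, one_pow, mul_one] at b5
        have b6 := w5.2.1 _ b4
        rwa [map_mul, b5, one_mul] at b6
      have w7 : PrimeDiv (locAt (chart x i) p) w := (primeDiv_locAt p w).2 ⟨w1, fun r hr => by
        by_contra hn
        obtain ⟨c1, c2⟩ := inv_mem_locAt hn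
        exact notMem_valCentre.2 (Val_one c1 (hi _ r.2) (hV _ c2)) (w2 r hr)⟩
      have w8 := (ord_eq_iff w (Units.ne_zero f) _).1 (hf ⟨w, i, w1⟩ w7)
      rw [map_mul, E.eqn a ⟨w, i, w1⟩ w6, w8, ← exp_add, add_neg_cancel, exp_zero]
  have h4 := congrArg V.valuation h3
  rwa [map_mul, notMem_valCentre.1 h1, notMem_valCentre.1 h2, one_mul] at h4

end Pool.Agent.Lib.MP_bc213e_ag.OW
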