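import Pool.Agent.Lib.MP_bc213e_ag.OW.E.Main

/-! The Euler characteristic of `L + a H` is the value at `a` of the Hilbert polynomial of `L`. -/

namespace Pool.Agent.Lib.MP_bc213e_ag.OW

open Pool.Agent.Lib.MP_bc213e_ag.Hyp WithZero Filter

variable {K : Type} [Field K] [Algebra ℂ K] {N : ℕ} {x : Fin (N + 1) → Kˣ} {H : Prm x →₀ ℤ}

theorem mem_tw_shift
    (hH : ∀ i (w : Prm x), PrimeDiv (chart x i) w.1 → H w = ord w.1 ((x 0 : K) / x i))
    (L : Prm x →₀ ℤ) (a b : ℕ) (s : K) :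
    s ∈ Tw (L + a • H) b ↔ (x 0 : K) ^ a * s ∈ Tw L (a + b) := by
  simp only [mem_Tw, mem_sect, Finset.mem_singleton, forall_eq]
  refine forall_congr' fun i => forall_congr' fun w => forall_congr' fun hw => ?_
  have u0 : (x 0 : K) / x i ≠ 0 := div_ne_zero (Units.ne_zero _) (Units.ne_zero _)
  have h1 := (ord_eq_iff w.1 u0 _).1 (hH i w hw).symm
  have e : (x 0 : K) ^ a * s / (x i : K) ^ (a + b) = s / (x i : K) ^ b * ((x 0 : K) / x i) ^ a := by
    rw [div_pow, pow_add]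
    field_simp
  rw [e, map_mul, map_pow, h1, ← exp_nsmul, Finsupp.add_apply, Finsupp.smul_apply, exp_add,
    smul_neg, exp_neg, mul_inv_le_iff₀ exp_pos]

theorem finrank_tw_shift
    (hH : ∀ i (w : Prm x), PrimeDiv (chart x i) w.1 → H w = ord w.1 ((x 0 : K) / x i))
    (L : Prm x →₀ ℤ) (a b : ℕ) :
    Module.finrank ℂ (Tw (L + a • H) b) = Module.finrank ℂ (Tw L (a + b)) := by
  have u0 : (x 0 : K) ^ a ≠ 0 := pow_ne_zero a (Units.ne_zero _)
  have e : (Tw (L + a • H) b).map (LinearMap.mulLeft ℂ ((x 0 : K) ^ a)) = Tw L (a + b) := by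
    ext s
    refine ⟨?_, fun hs => ⟨((x 0 : K) ^ a)⁻¹ * s, ?_, mul_inv_cancel_left₀ u0 s⟩⟩
    · rintro ⟨s, hs, rfl⟩
      exact (mem_tw_shift hH L a b s).1 hs
    · refine (mem_tw_shift hH L a b _).2 ?_
      rwa [mul_inv_cancel_left₀ u0]
  rw [← e]
  exact (Submodule.equivMapOfInjective _ (mul_right_injective₀ u0) _).finrank_eq

theorem chi_shift
    (normal : ∀ i, IsFractionRing (chart x i) K ∧ IsIntegrallyClosed (chart x i))
    (hH : ∀ i (w : Prm x), PrimeDiv (chart x i) w.1 → H w = ord w.1 ((x 0 : K) / x i))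
    (L : Prm x →₀ ℤ) : ∀ᶠ a : ℕ in atTop,
      (Module.finrank ℂ (Tw L a) : ℚ) = (chi (Sect (L + a • H)) : ℚ) := by
  obtain ⟨p, -, hp⟩ := cech_hilb x normal L
  filter_upwards [hp] with a ha
  obtain ⟨q, q0, hq⟩ := cech_hilb x normal (L + a • H)
  have h1 : Tendsto (fun b : ℕ => a + b) atTop atTop :=
    tendsto_atTop_mono (fun b => Nat.le_add_left b a) tendsto_id
  obtain ⟨b₀, hb⟩ := eventually_atTop.1 (hq.and (h1.eventually hp))
  have e : q = p.comp (Polynomial.C (a : ℚ) + Polynomial.X) := by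
    refine Polynomial.eq_of_infinite_eval_eq _ _
      (((Set.Ici_infinite b₀).image (Nat.cast_injective (R := ℚ)).injOn).mono ?_)
    rintro _ ⟨b, h, rfl⟩
    obtain ⟨h2, h3⟩ := hb b h
    rw [Set.mem_ofPred_eq, ← h2, finrank_tw_shift hH, h3, Polynomial.eval_comp]
    simp
  rw [ha, ← q0, e, Polynomial.eval_comp]
  simp

end Pool.Agent.Lib.MP_bc213e_ag.OW
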